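import Mathlib

set_option autoImplicit false

namespace Pool.Agent.Results.MP_15d263_co.Aligned

/-- The Euclidean plane. -/
abbrev Plane : Type := EuclideanSpace ℝ (Fin 2)

/-- The point with coordinates `(u, v)`. -/
noncomputable def pt (u v : ℝ) : Plane := !₂[u, v]

/-- The closed unit square with centre `c` and sides parallel to the axes. -/
def sq (c : Plane) : Set Plane := {z | |z 0 - c 0| ≤ 1 / 2 ∧ |z 1 - c 1| ≤ 1 / 2}

/-- The prototile `T(x,y)`: the union of the unit squares centred at `(0,0)` and `(x,y)`. -/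
def T (x y : ℤ) : Set Plane := sq (pt 0 0) ∪ sq (pt x y)

/-- A countable family of closed sets covering the plane with pairwise disjoint interiors. -/
structure IsTiling (F : Set (Set Plane)) : Prop where
  countable : F.Countable
  closed : ∀ t ∈ F, IsClosed t
  cover : ⋃₀ F = Set.univ
  disjoint : ∀ t ∈ F, ∀ t' ∈ F, t ≠ t' → Disjoint (interior t) (interior t')

/-- Every tile is congruent to `P` (reflections allowed). -/
def Monohedral (F : Set (Set Plane)) (P : Set Plane) : Prop :=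
  ∀ t ∈ F, ∃ g : Plane ≃ᵢ Plane, g '' P = t

/-- The isometry `g` maps the tiling onto itself. -/
def IsSymmetry (F : Set (Set Plane)) (g : Plane ≃ᵢ Plane) : Prop :=
  (fun t => g '' t) '' F = F

/-- The symmetry group acts transitively on the tiles. -/
def Isohedral (F : Set (Set Plane)) : Prop :=
  ∀ t ∈ F, ∀ t' ∈ F, ∃ g, IsSymmetry F g ∧ g '' t = t'

/-- Isohedral, and the symmetries mapping a tile onto itself act transitively on its connected
components. -/
def Idiomeric (F : Set (Set Plane)) : Prop :=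
  Isohedral F ∧ ∀ t ∈ F, ∀ z ∈ t, ∀ w ∈ t, ∃ g, IsSymmetry F g ∧ g '' t = t ∧
    g '' connectedComponentIn t z = connectedComponentIn t w

/-- Every tile is a union of two squares of the regular tiling with centres in `ℤ²`. -/
def OnGrid (F : Set (Set Plane)) : Prop :=
  ∀ t ∈ F, ∃ a b c d : ℤ, t = sq (pt a b) ∪ sq (pt c d)

/-! ### Squares -/

@[simp] theorem pt_zero (u v : ℝ) : pt u v 0 = u := by simp [pt]
@[simp] theorem pt_one (u v : ℝ) : pt u v 1 = v := by simp [pt]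

theorem ext2 {z w : Plane} (h0 : z 0 = w 0) (h1 : z 1 = w 1) : z = w := by
  ext i
  fin_cases i
  · exact h0
  · exact h1

theorem dist_sq (z w : Plane) : dist z w ^ 2 = (z 0 - w 0) ^ 2 + (z 1 - w 1) ^ 2 := by
  rw [EuclideanSpace.dist_eq, Real.sq_sqrt (by positivity)]
  simp [Real.dist_eq]

theorem mem_sq_self (c : Plane) : c ∈ sq c := by
  simp [sq]

theorem isClosed_sq (c : Plane) : IsClosed (sq c) := by
  have h0 : Continuous fun z : Plane => |z 0 - c 0| := by fun_prop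
  have h1 : Continuous fun z : Plane => |z 1 - c 1| := by fun_prop
  exact (isClosed_le h0 continuous_const).inter (isClosed_le h1 continuous_const)

theorem convex_sq (c : Plane) : Convex ℝ (sq c) := by
  intro z hz w hw a b ha hb hab
  obtain ⟨hz0, hz1⟩ := hz
  obtain ⟨hw0, hw1⟩ := hw
  rw [abs_le] at hz0 hz1 hw0 hw1
  have e0 : (a • z + b • w) 0 = a * z 0 + b * w 0 := by simp
  have e1 : (a • z + b • w) 1 = a * z 1 + b * w 1 := by simp
  have hb' : b = 1 - a := by linarith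
  constructor
  · rw [e0, abs_le]; subst hb'
    constructor <;> nlinarith
  · rw [e1, abs_le]; subst hb'
    constructor <;> nlinarith

theorem isPreconnected_sq (c : Plane) : IsPreconnected (sq c) := (convex_sq c).isPreconnected

/-- `r = √2/2` as the circumradius. -/
theorem sq_subset_ball (c z : Plane) (hz : z ∈ sq c) : dist z c ^ 2 ≤ 1 / 2 := by
  obtain ⟨h0, h1⟩ := hz
  rw [dist_sq]
  rw [abs_le] at h0 h1
  nlinarith

theorem center_unique (c z : Plane) (h : ∀ w ∈ sq c, dist w z ^ 2 ≤ 1 / 2) : z = c := by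
  have h1 := h (pt (c 0 + 1 / 2) (c 1 + 1 / 2)) (by
    constructor <;> simp)
  have h2 := h (pt (c 0 - 1 / 2) (c 1 - 1 / 2)) (by
    constructor <;> simp)
  rw [dist_sq] at h1 h2
  simp only [pt_zero, pt_one] at h1 h2
  have h3 : (z 0 - c 0) ^ 2 + (z 1 - c 1) ^ 2 ≤ 0 := by nlinarith
  have h4 : z 0 - c 0 = 0 := by nlinarith [sq_nonneg (z 0 - c 0), sq_nonneg (z 1 - c 1)]
  have h5 : z 1 - c 1 = 0 := by nlinarith [sq_nonneg (z 0 - c 0), sq_nonneg (z 1 - c 1)]
  exact ext2 (by linarith) (by linarith)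

/-- An isometry mapping a square into a square maps centre to centre. -/
theorem map_center {a b : Plane} (g : Plane ≃ᵢ Plane) (h : sq b ⊆ g '' sq a) : g a = b := by
  apply center_unique
  intro w hw
  obtain ⟨w', hw', rfl⟩ := h hw
  rw [g.dist_eq]
  exact sq_subset_ball a w' hw'

/-- two squares are disjoint when the centres are at least two apart in some coordinate -/
theorem disjoint_sq {a b : Plane} (h : 1 < |a 0 - b 0| ∨ 1 < |a 1 - b 1|) :
    Disjoint (sq a) (sq b) := by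
  rw [Set.disjoint_left]
  rintro z ⟨h0, h1⟩ ⟨h2, h3⟩
  rw [abs_le] at h0 h1 h2 h3
  rcases h with h | h <;> rw [lt_abs] at h <;> rcases h with h | h <;> linarith

theorem comp_left {a b : Plane} (h : Disjoint (sq a) (sq b)) {z : Plane} (hz : z ∈ sq a) :
    connectedComponentIn (sq a ∪ sq b) z = sq a := by
  apply Set.Subset.antisymm
  · have h1 : IsPreconnected (connectedComponentIn (sq a ∪ sq b) z) :=
      isPreconnected_connectedComponentIn
    have h2 := connectedComponentIn_subset (sq a ∪ sq b) z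
    have hz' : z ∈ connectedComponentIn (sq a ∪ sq b) z :=
      mem_connectedComponentIn (Or.inl hz)
    have h3 := isPreconnected_iff_subset_of_disjoint_closed.1 h1 (sq a) (sq b) (isClosed_sq a)
      (isClosed_sq b) h2 (by rw [h.inter_eq]; simp)
    rcases h3 with h3 | h3
    · exact h3
    · exact (Set.disjoint_left.1 h hz (h3 hz')).elim
  · exact (isPreconnected_sq a).subset_connectedComponentIn hz Set.subset_union_left

theorem comp_right {a b : Plane} (h : Disjoint (sq a) (sq b)) {z : Plane} (hz : z ∈ sq b) :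
    connectedComponentIn (sq a ∪ sq b) z = sq b := by
  rw [Set.union_comm]
  exact comp_left h.symm hz

theorem mem_interior_sq (c : Plane) : c ∈ interior (sq c) := by
  rw [mem_interior]
  refine ⟨{z | |z 0 - c 0| < 1 / 2} ∩ {z | |z 1 - c 1| < 1 / 2}, ?_, ?_, ?_⟩
  · rintro z ⟨h0, h1⟩
    exact ⟨le_of_lt h0, le_of_lt h1⟩
  · have h0 : Continuous fun z : Plane => |z 0 - c 0| := by fun_prop
    have h1 : Continuous fun z : Plane => |z 1 - c 1| := by fun_prop
    exact (isOpen_lt h0 continuous_const).inter (isOpen_lt h1 continuous_const)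
  · simp

/-! ### The construction -/

theorem image_add (v c : Plane) : (IsometryEquiv.addRight v) '' sq c = sq (c + v) := by
  ext z
  constructor
  · rintro ⟨w, ⟨h0, h1⟩, rfl⟩
    constructor
    · simpa using h0
    · simpa using h1
  · rintro ⟨h0, h1⟩
    refine ⟨z - v, ⟨?_, ?_⟩, by simp⟩
    · simpa [sub_sub, add_comm] using h0
    · simpa [sub_sub, add_comm] using h1

theorem image_sub (v c : Plane) : (IsometryEquiv.subLeft v) '' sq c = sq (v - c) := by
  ext z
  constructor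
  · rintro ⟨w, ⟨h0, h1⟩, rfl⟩
    constructor
    · have : (v - w) 0 - (v - c) 0 = -(w 0 - c 0) := by simp
      change |(v - w) 0 - (v - c) 0| ≤ 1 / 2
      rw [this, abs_neg]; exact h0
    · have : (v - w) 1 - (v - c) 1 = -(w 1 - c 1) := by simp
      change |(v - w) 1 - (v - c) 1| ≤ 1 / 2
      rw [this, abs_neg]; exact h1
  · rintro ⟨h0, h1⟩
    refine ⟨v - z, ⟨?_, ?_⟩, by simp⟩
    · have : (v - z) 0 - c 0 = -(z 0 - (v - c) 0) := by simp; ring
      rw [this, abs_neg]; exact h0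
    · have : (v - z) 1 - c 1 = -(z 1 - (v - c) 1) := by simp; ring
      rw [this, abs_neg]; exact h1

theorem interior_line (i : Fin 2) (r : ℝ) : interior {z : Plane | z i = r} = ∅ := by
  rw [Set.eq_empty_iff_forall_notMem]
  intro z hz
  rw [mem_interior_iff_mem_nhds, Metric.mem_nhds_iff] at hz
  obtain ⟨ε, hε, h⟩ := hz
  have hz0 : z i = r := h (Metric.mem_ball_self hε)
  have h1 : z + EuclideanSpace.single i (ε / 2) ∈ Metric.ball z ε := by
    rw [Metric.mem_ball, dist_eq_norm]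
    rw [add_sub_cancel_left, PiLp.norm_single, Real.norm_eq_abs]
    rw [abs_of_pos (by linarith)]
    linarith
  have h2 : (z + EuclideanSpace.single i (ε / 2)) i = r := h h1
  simp at h2
  linarith

theorem isClosed_line (i : Fin 2) (r : ℝ) : IsClosed {z : Plane | z i = r} := by
  have h0 : Continuous fun z : Plane => z i := by fun_prop
  exact isClosed_eq h0 continuous_const

/-- centres of the sheared square tiling -/
noncomputable def C (θ : ℝ) (k j : ℤ) : Plane := pt (k + θ * j) j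

theorem sq_inter_sub (θ : ℝ) {k j k' j' : ℤ} (h : (k, j) ≠ (k', j')) :
    ∃ (i : Fin 2) (r : ℝ), sq (C θ k j) ∩ sq (C θ k' j') ⊆ {z : Plane | z i = r} := by
  by_cases hj : j = j'
  · subst hj
    have hk : k ≠ k' := fun h' => h (by rw [h'])
    refine ⟨0, ((C θ k j) 0 + (C θ k' j) 0) / 2, ?_⟩
    rintro z ⟨⟨h0, _⟩, ⟨h2, _⟩⟩
    simp only [C, pt_zero] at h0 h2 ⊢
    rw [abs_le] at h0 h2
    change z 0 = _
    rcases lt_or_gt_of_ne hk with hlt | hlt
    · have : (k : ℝ) + 1 ≤ k' := by exact_mod_cast hlt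
      linarith
    · have : (k' : ℝ) + 1 ≤ k := by exact_mod_cast hlt
      linarith
  · refine ⟨1, ((C θ k j) 1 + (C θ k' j') 1) / 2, ?_⟩
    rintro z ⟨⟨_, h0⟩, ⟨_, h2⟩⟩
    simp only [C, pt_one] at h0 h2 ⊢
    rw [abs_le] at h0 h2
    change z 1 = _
    rcases lt_or_gt_of_ne hj with hlt | hlt
    · have : (j : ℝ) + 1 ≤ j' := by exact_mod_cast hlt
      linarith
    · have : (j' : ℝ) + 1 ≤ j := by exact_mod_cast hlt
      linarith

theorem interior_union_empty {A B : Set Plane} (hA : IsClosed A) (h1 : interior A = ∅)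
    (h2 : interior B = ∅) : interior (A ∪ B) = ∅ := by
  rw [interior_union_isClosed_of_interior_empty hA h2, h1]

/-- tiles of the construction -/
noncomputable def tl (θ : ℝ) (m y : ℤ) (p : ℤ × ℤ) : Set Plane :=
  sq (C θ (2 * p.1) p.2) ∪ sq (C θ (2 * p.1 + m) (p.2 + y))

theorem tl_interior (θ : ℝ) {m : ℤ} (hm : Odd m) (y : ℤ) {p p' : ℤ × ℤ} (h : p ≠ p') :
    interior (tl θ m y p ∩ tl θ m y p') = ∅ := by
  obtain ⟨i, j⟩ := p
  obtain ⟨i', j'⟩ := p'
  have n1 : ((2 * i, j) : ℤ × ℤ) ≠ (2 * i', j') := by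
    intro h'
    rw [Prod.mk.injEq] at h'
    exact h (by rw [Prod.mk.injEq]; exact ⟨by omega, h'.2⟩)
  have n2 : ((2 * i + m, j + y) : ℤ × ℤ) ≠ (2 * i' + m, j' + y) := by
    intro h'
    rw [Prod.mk.injEq] at h'
    exact h (by rw [Prod.mk.injEq]; exact ⟨by omega, by omega⟩)
  have n3 : ((2 * i, j) : ℤ × ℤ) ≠ (2 * i' + m, j' + y) := by
    intro h'
    rw [Prod.mk.injEq] at h'
    obtain ⟨k, hk⟩ := hm
    omega
  have n4 : ((2 * i + m, j + y) : ℤ × ℤ) ≠ (2 * i', j') := by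
    intro h'
    rw [Prod.mk.injEq] at h'
    obtain ⟨k, hk⟩ := hm
    omega
  obtain ⟨a1, r1, s1⟩ := sq_inter_sub θ n1
  obtain ⟨a2, r2, s2⟩ := sq_inter_sub θ n2
  obtain ⟨a3, r3, s3⟩ := sq_inter_sub θ n3
  obtain ⟨a4, r4, s4⟩ := sq_inter_sub θ n4
  have hsub : tl θ m y (i, j) ∩ tl θ m y (i', j') ⊆
      {z : Plane | z a1 = r1} ∪ ({z : Plane | z a2 = r2} ∪
        ({z : Plane | z a3 = r3} ∪ {z : Plane | z a4 = r4})) := by
    rintro z ⟨h1 | h1, h2 | h2⟩
    · exact Or.inl (s1 ⟨h1, h2⟩)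
    · exact Or.inr (Or.inr (Or.inl (s3 ⟨h1, h2⟩)))
    · exact Or.inr (Or.inr (Or.inr (s4 ⟨h1, h2⟩)))
    · exact Or.inr (Or.inl (s2 ⟨h1, h2⟩))
  have hemp := interior_union_empty (isClosed_line a1 r1) (interior_line a1 r1)
    (interior_union_empty (isClosed_line a2 r2) (interior_line a2 r2)
      (interior_union_empty (isClosed_line a3 r3) (interior_line a3 r3) (interior_line a4 r4)))
  exact Set.eq_empty_of_subset_empty (hemp ▸ interior_mono hsub)

theorem tl_add (θ : ℝ) (m y : ℤ) (p v : ℤ × ℤ) :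
    (IsometryEquiv.addRight (C θ (2 * v.1) v.2)) '' tl θ m y p = tl θ m y (p + v) := by
  rw [tl, Set.image_union, image_add, image_add, tl]
  congr 2
  · apply ext2 <;> simp [C] <;> ring
  · apply ext2 <;> simp [C] <;> ring

theorem tl_sub (θ : ℝ) (m y : ℤ) (p v : ℤ × ℤ) :
    (IsometryEquiv.subLeft (C θ (2 * v.1) v.2 + C θ (2 * v.1 + m) (v.2 + y))) '' tl θ m y p =
      tl θ m y (v + v - p) := by
  rw [tl, Set.image_union, image_sub, image_sub, tl, Set.union_comm]
  congr 2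
  · apply ext2 <;> simp [C] <;> ring
  · apply ext2 <;> simp [C] <;> ring

theorem isSymm_of (θ : ℝ) (m y : ℤ) (g : Plane ≃ᵢ Plane) (e : ℤ × ℤ → ℤ × ℤ)
    (he : Function.Surjective e) (h : ∀ p, g '' tl θ m y p = tl θ m y (e p)) :
    IsSymmetry (Set.range (tl θ m y)) g := by
  ext t
  constructor
  · rintro ⟨_, ⟨p, rfl⟩, rfl⟩
    exact ⟨e p, (h p).symm⟩
  · rintro ⟨p, rfl⟩
    obtain ⟨q, rfl⟩ := he p
    exact ⟨tl θ m y q, ⟨q, rfl⟩, h q⟩

theorem construction (x y : ℤ) (hxy : 2 ≤ max |x| |y|) (θ : ℝ) (m : ℤ) (hm : Odd m)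
    (hx : (x : ℝ) = m + θ * y) :
    IsTiling (Set.range (tl θ m y)) ∧ Monohedral (Set.range (tl θ m y)) (T x y) ∧
      Idiomeric (Set.range (tl θ m y)) := by
  have hdis : ∀ p : ℤ × ℤ, Disjoint (sq (C θ (2 * p.1) p.2))
      (sq (C θ (2 * p.1 + m) (p.2 + y))) := by
    intro p
    apply disjoint_sq
    have e0 : (C θ (2 * p.1) p.2) 0 - (C θ (2 * p.1 + m) (p.2 + y)) 0 = -x := by
      simp [C, hx]; ring
    have e1 : (C θ (2 * p.1) p.2) 1 - (C θ (2 * p.1 + m) (p.2 + y)) 1 = -y := by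
      simp [C]
    rw [e0, e1, abs_neg, abs_neg]
    rcases le_max_iff.1 hxy with h | h
    · left
      have : (2 : ℝ) ≤ |(x : ℝ)| := by exact_mod_cast h
      linarith
    · right
      have : (2 : ℝ) ≤ |(y : ℝ)| := by exact_mod_cast h
      linarith
  have htrans : ∀ v : ℤ × ℤ, IsSymmetry (Set.range (tl θ m y))
      (IsometryEquiv.addRight (C θ (2 * v.1) v.2)) := by
    intro v
    apply isSymm_of θ m y _ (fun p => p + v) (fun p => ⟨p - v, by simp⟩)
    intro p
    exact tl_add θ m y p v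
  refine ⟨⟨Set.countable_range _, ?_, ?_, ?_⟩, ?_, ?_, ?_⟩
  · rintro _ ⟨p, rfl⟩
    exact (isClosed_sq _).union (isClosed_sq _)
  · rw [Set.eq_univ_iff_forall]
    intro z
    set j := round (z 1) with hj
    set k := round (z 0 - θ * j) with hk
    have h1 : |z 1 - j| ≤ 1 / 2 := abs_sub_round _
    have h0 : |z 0 - θ * j - k| ≤ 1 / 2 := abs_sub_round _
    have hz : z ∈ sq (C θ k j) := by
      constructor
      · simp only [C, pt_zero]
        have : z 0 - (k + θ * j) = z 0 - θ * j - k := by ring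
        rw [this]; exact h0
      · simpa [C] using h1
    rcases Int.even_or_odd k with ⟨i, hi⟩ | hodd
    · refine ⟨tl θ m y (i, j), ⟨(i, j), rfl⟩, Or.inl ?_⟩
      have : 2 * i = k := by omega
      simp only [this]
      exact hz
    · obtain ⟨i, hi⟩ := hodd.sub_odd hm
      refine ⟨tl θ m y (i, j - y), ⟨(i, j - y), rfl⟩, Or.inr ?_⟩
      have h3 : 2 * i + m = k := by omega
      have h4 : j - y + y = j := by omega
      simp only [h3, h4]
      exact hz
  · rintro _ ⟨p, rfl⟩ _ ⟨p', rfl⟩ hne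
    have hpp : p ≠ p' := fun h => hne (by rw [h])
    rw [Set.disjoint_iff_inter_eq_empty, ← interior_inter]
    exact tl_interior θ hm y hpp
  · rintro _ ⟨p, rfl⟩
    refine ⟨IsometryEquiv.addRight (C θ (2 * p.1) p.2), ?_⟩
    rw [T, Set.image_union, image_add, image_add, tl]
    congr 2
    · apply ext2 <;> simp [C]
    · apply ext2
      · simp [C, hx]; ring
      · simp [C]; ring
  · rintro _ ⟨p, rfl⟩ _ ⟨p', rfl⟩
    refine ⟨IsometryEquiv.addRight (C θ (2 * (p' - p).1) (p' - p).2), htrans (p' - p), ?_⟩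
    rw [tl_add]
    congr 1
    abel
  · rintro _ ⟨p, rfl⟩ z hz w hw
    -- the half-turn exchanging the two squares of the tile
    let g := IsometryEquiv.subLeft (C θ (2 * p.1) p.2 + C θ (2 * p.1 + m) (p.2 + y))
    have hg : IsSymmetry (Set.range (tl θ m y)) g := by
      apply isSymm_of θ m y _ (fun q => p + p - q) (fun q => ⟨p + p - q, by simp⟩)
      intro q
      exact tl_sub θ m y q p
    have hgt : g '' tl θ m y p = tl θ m y p := by
      have := tl_sub θ m y p p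
      rw [show p + p - p = p by abel] at this
      exact this
    have hg1 : g '' sq (C θ (2 * p.1) p.2) = sq (C θ (2 * p.1 + m) (p.2 + y)) := by
      rw [image_sub]; congr 1; abel
    have hg2 : g '' sq (C θ (2 * p.1 + m) (p.2 + y)) = sq (C θ (2 * p.1) p.2) := by
      rw [image_sub]; congr 1; abel
    have hrefl : ∀ S : Set Plane, (IsometryEquiv.refl Plane) '' S = S := fun S => Set.image_id S
    have hid : IsSymmetry (Set.range (tl θ m y)) (IsometryEquiv.refl Plane) := by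
      apply isSymm_of θ m y _ id Function.surjective_id
      intro q
      exact hrefl _
    rcases hz with hz | hz <;> rcases hw with hw | hw
    · refine ⟨IsometryEquiv.refl _, hid, hrefl _, ?_⟩
      rw [hrefl, tl, comp_left (hdis p) hz, comp_left (hdis p) hw]
    · refine ⟨g, hg, hgt, ?_⟩
      rw [tl, comp_left (hdis p) hz, comp_right (hdis p) hw, hg1]
    · refine ⟨g, hg, hgt, ?_⟩
      rw [tl, comp_right (hdis p) hz, comp_left (hdis p) hw, hg2]
    · refine ⟨IsometryEquiv.refl _, hid, hrefl _, ?_⟩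
      rw [hrefl, tl, comp_right (hdis p) hz, comp_right (hdis p) hw]

/-! ### The obstruction -/

/-- A tile of a grid tiling congruent to `T x y` has disjoint squares whose centres are at the
right distance. -/
theorem tile_struct {x y : ℤ} (hxy : 2 ≤ max |x| |y|) {A B : Plane} (g : Plane ≃ᵢ Plane)
    (hg : g '' T x y = sq A ∪ sq B) :
    Disjoint (sq A) (sq B) ∧ dist A B ^ 2 = (x : ℝ) ^ 2 + (y : ℝ) ^ 2 := by
  have hdis0 : Disjoint (sq (pt 0 0)) (sq (pt x y)) := by
    apply disjoint_sq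
    simp only [pt_zero, pt_one, zero_sub, abs_neg]
    rcases le_max_iff.1 hxy with h | h
    · left
      have : (2 : ℝ) ≤ |(x : ℝ)| := by exact_mod_cast h
      linarith
    · right
      have : (2 : ℝ) ≤ |(y : ℝ)| := by exact_mod_cast h
      linarith
  have hdis : Disjoint (g '' sq (pt 0 0)) (g '' sq (pt x y)) :=
    (Set.disjoint_image_iff g.injective).2 hdis0
  rw [T, Set.image_union] at hg
  have hcl : ∀ c, IsClosed (g '' sq c) := fun c => (g.toHomeomorph.isClosedMap) _ (isClosed_sq c)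
  have hsplit : ∀ D : Plane, sq D ⊆ g '' sq (pt 0 0) ∪ g '' sq (pt x y) →
      sq D ⊆ g '' sq (pt 0 0) ∨ sq D ⊆ g '' sq (pt x y) := by
    intro D hD
    exact isPreconnected_iff_subset_of_disjoint_closed.1 (isPreconnected_sq D) _ _ (hcl _) (hcl _)
      hD (by rw [hdis.inter_eq]; simp)
  have hd : dist (pt 0 0) (pt x y) ^ 2 = (x : ℝ) ^ 2 + (y : ℝ) ^ 2 := by
    rw [dist_sq]; simp
  rcases hsplit A (hg ▸ Set.subset_union_left) with hA | hA <;>
    rcases hsplit B (hg ▸ Set.subset_union_right) with hB | hB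
  · exfalso
    have h1 : g (pt x y) ∈ sq A ∪ sq B := hg ▸ Or.inr ⟨_, mem_sq_self _, rfl⟩
    have h2 : g (pt x y) ∈ g '' sq (pt 0 0) := by
      rcases h1 with h1 | h1
      · exact hA h1
      · exact hB h1
    exact Set.disjoint_left.1 hdis h2 ⟨_, mem_sq_self _, rfl⟩
  · have e1 := map_center g hA
    have e2 := map_center g hB
    refine ⟨hdis.mono hA hB, ?_⟩
    rw [← e1, ← e2, g.dist_eq, hd]
  · have e1 := map_center g hA
    have e2 := map_center g hB
    refine ⟨hdis.symm.mono hA hB, ?_⟩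
    rw [← e1, ← e2, g.dist_eq, dist_comm, hd]
  · exfalso
    have h1 : g (pt 0 0) ∈ sq A ∪ sq B := hg ▸ Or.inl ⟨_, mem_sq_self _, rfl⟩
    have h2 : g (pt 0 0) ∈ g '' sq (pt x y) := by
      rcases h1 with h1 | h1
      · exact hA h1
      · exact hB h1
    exact Set.disjoint_left.1 hdis ⟨_, mem_sq_self _, rfl⟩ h2

/-- In a grid tiling the square centred at a lattice point belongs to a tile. -/
theorem partner {F : Set (Set Plane)} {x y : ℤ} (hxy : 2 ≤ max |x| |y|) (hT : IsTiling F)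
    (hM : Monohedral F (T x y)) (hG : OnGrid F) (a b : ℤ) :
    ∃ c d : ℤ, sq (pt a b) ∪ sq (pt c d) ∈ F ∧ Disjoint (sq (pt a b)) (sq (pt c d)) ∧
      (a - c) ^ 2 + (b - d) ^ 2 = x ^ 2 + y ^ 2 := by
  have hz : pt a b ∈ ⋃₀ F := by rw [hT.cover]; trivial
  obtain ⟨t, ht, hzt⟩ := hz
  obtain ⟨a1, b1, a2, b2, rfl⟩ := hG t ht
  obtain ⟨g, hg⟩ := hM _ ht
  obtain ⟨hdis, hdist⟩ := tile_struct hxy g hg
  have hint : ∀ u v : ℤ, |(u : ℝ) - v| ≤ 1 / 2 → u = v := by
    intro u v h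
    have h1 : |((u - v : ℤ) : ℝ)| < 1 := by push_cast; linarith
    have h2 : |u - v| < 1 := by exact_mod_cast h1
    have := Int.abs_lt_one_iff.1 h2
    omega
  have hsq : ∀ c1 c2 e1 e2 : ℤ,
      dist (pt c1 c2) (pt e1 e2) ^ 2 = (((c1 - e1) ^ 2 + (c2 - e2) ^ 2 : ℤ) : ℝ) := by
    intro c1 c2 e1 e2
    rw [dist_sq]; push_cast; simp
  rcases hzt with ⟨h0, h1⟩ | ⟨h0, h1⟩
  · simp only [pt_zero, pt_one] at h0 h1
    have e0 := hint _ _ h0
    have e1 := hint _ _ h1
    subst e0 e1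
    refine ⟨a2, b2, ht, hdis, ?_⟩
    rw [hsq] at hdist
    exact_mod_cast hdist
  · simp only [pt_zero, pt_one] at h0 h1
    have e0 := hint _ _ h0
    have e1 := hint _ _ h1
    subst e0 e1
    refine ⟨a1, b1, by rw [Set.union_comm]; exact ht, hdis.symm, ?_⟩
    rw [dist_comm, hsq] at hdist
    exact_mod_cast hdist

theorem symm_mem {F : Set (Set Plane)} {g : Plane ≃ᵢ Plane} (hg : IsSymmetry F g) {t : Set Plane}
    (ht : t ∈ F) : g '' t ∈ F := by
  have h : (fun t => g '' t) '' F = F := hg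
  rw [← h]
  exact ⟨t, ht, rfl⟩

/-- A symmetry fixing the centre of one square of a tile fixes the centre of the other. -/
theorem fix_partner {F : Set (Set Plane)} (hT : IsTiling F) {A B : Plane}
    (ht : sq A ∪ sq B ∈ F) (hdis : Disjoint (sq A) (sq B)) {g : Plane ≃ᵢ Plane}
    (hg : IsSymmetry F g) (hA : g A = A) : g B = B := by
  have hgt := symm_mem hg ht
  have hint : A ∈ interior (sq A ∪ sq B) := interior_mono Set.subset_union_left (mem_interior_sq A)
  have hint2 : A ∈ interior (g '' (sq A ∪ sq B)) := by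
    have h1 : g '' interior (sq A ∪ sq B) = interior (g '' (sq A ∪ sq B)) :=
      g.toHomeomorph.image_interior _
    rw [← h1]
    exact ⟨A, hint, hA⟩
  have heq : g '' (sq A ∪ sq B) = sq A ∪ sq B := by
    by_contra hne
    exact Set.disjoint_left.1 (hT.disjoint _ hgt _ ht hne) hint2 hint
  have hcl : ∀ c, IsClosed (g '' sq c) := fun c => (g.toHomeomorph.isClosedMap) _ (isClosed_sq c)
  have hdis' : Disjoint (g '' sq A) (g '' sq B) := (Set.disjoint_image_iff g.injective).2 hdis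
  rw [Set.image_union] at heq
  have hsub : sq B ⊆ g '' sq A ∪ g '' sq B := by rw [heq]; exact Set.subset_union_right
  rcases isPreconnected_iff_subset_of_disjoint_closed.1 (isPreconnected_sq B) _ _ (hcl A) (hcl B)
      hsub (by rw [hdis'.inter_eq]; simp) with h | h
  · exfalso
    have h2 := map_center g h
    rw [hA] at h2
    rw [h2] at hdis
    exact Set.disjoint_left.1 hdis (mem_sq_self B) (mem_sq_self B)
  · exact map_center g h

/-- The symmetry exchanging the two squares of a tile exchanges the centres. -/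
theorem swap_centers {F : Set (Set Plane)} (hI : Idiomeric F) {A B : Plane}
    (ht : sq A ∪ sq B ∈ F) (hdis : Disjoint (sq A) (sq B)) :
    ∃ g : Plane ≃ᵢ Plane, IsSymmetry F g ∧ g A = B ∧ g B = A := by
  obtain ⟨g, hg, hgt, hc⟩ := hI.2 _ ht A (Or.inl (mem_sq_self A)) B (Or.inr (mem_sq_self B))
  rw [comp_left hdis (mem_sq_self A), comp_right hdis (mem_sq_self B)] at hc
  have h1 : g A = B := map_center g hc.symm.subset
  refine ⟨g, hg, h1, ?_⟩
  apply map_center g
  have hcl : ∀ c, IsClosed (g '' sq c) := fun c => (g.toHomeomorph.isClosedMap) _ (isClosed_sq c)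
  intro z hz
  have h2 : z ∈ g '' (sq A ∪ sq B) := by rw [hgt]; exact Or.inl hz
  rw [Set.image_union, hc] at h2
  rcases h2 with h2 | h2
  · exact (Set.disjoint_left.1 hdis hz h2).elim
  · exact h2

theorem even_of_sq {u v x y : ℤ} (h : u ^ 2 + v ^ 2 = x ^ 2 + y ^ 2) (hx : Even x) (hy : Even y) :
    Even u ∧ Even v := by
  obtain ⟨p, hp⟩ := hx
  obtain ⟨q, hq⟩ := hy
  have h4 : (u ^ 2 + v ^ 2) % 4 = 0 := by
    rw [h, hp, hq]
    have : (p + p) ^ 2 + (q + q) ^ 2 = 4 * (p ^ 2 + q ^ 2) := by ring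
    rw [this]
    exact Int.mul_emod_right 4 _
  rcases Int.even_or_odd' u with ⟨k, hk | hk⟩ <;> rcases Int.even_or_odd' v with ⟨l, hl | hl⟩
  · exact ⟨⟨k, by omega⟩, ⟨l, by omega⟩⟩
  · exfalso
    rw [hk, hl] at h4
    have : (2 * k) ^ 2 + (2 * l + 1) ^ 2 = 4 * (k ^ 2 + l ^ 2 + l) + 1 := by ring
    omega
  · exfalso
    rw [hk, hl] at h4
    have : (2 * k + 1) ^ 2 + (2 * l) ^ 2 = 4 * (k ^ 2 + l ^ 2 + k) + 1 := by ring
    omega
  · exfalso
    rw [hk, hl] at h4
    have : (2 * k + 1) ^ 2 + (2 * l + 1) ^ 2 = 4 * (k ^ 2 + l ^ 2 + k + l) + 2 := by ring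
    omega

theorem midpoint_pt (a b c d : ℝ) : midpoint ℝ (pt a b) (pt c d) = pt ((a + c) / 2) ((b + d) / 2) := by
  apply ext2
  · rw [midpoint_eq_smul_add]; simp; ring
  · rw [midpoint_eq_smul_add]; simp; ring

theorem obstruction {F : Set (Set Plane)} {x y : ℤ} (hxy : 2 ≤ max |x| |y|) (hT : IsTiling F)
    (hM : Monohedral F (T x y)) (hG : OnGrid F) (hI : Idiomeric F) (hx : Even x) (hy : Even y) :
    False := by
  have hpos : 0 < x ^ 2 + y ^ 2 := by
    rcases le_max_iff.1 hxy with h | h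
    · have : x ≠ 0 := by rintro rfl; simp at h
      positivity
    · have : y ≠ 0 := by rintro rfl; simp at h
      positivity
  obtain ⟨a', b', ht1, hd1, hn1⟩ := partner hxy hT hM hG 0 0
  obtain ⟨he1, he2⟩ := even_of_sq hn1 hx hy
  obtain ⟨a, ha⟩ := he1
  obtain ⟨b, hb⟩ := he2
  obtain rfl : a' = -(2 * a) := by omega
  obtain rfl : b' = -(2 * b) := by omega
  obtain ⟨g1, hg1, s1, s1'⟩ := swap_centers hI ht1 hd1
  -- the midpoint of the first tile
  obtain ⟨c, d, ht2, hd2, hn2⟩ := partner hxy hT hM hG (-a) (-b)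
  obtain ⟨he3, he4⟩ := even_of_sq hn2 hx hy
  obtain ⟨p, hp⟩ := he3
  obtain ⟨q, hq⟩ := he4
  obtain rfl : c = -a - 2 * p := by omega
  obtain rfl : d = -b - 2 * q := by omega
  have hmid1 : g1 (pt ((-a : ℤ) : ℝ) ((-b : ℤ) : ℝ)) = pt ((-a : ℤ) : ℝ) ((-b : ℤ) : ℝ) := by
    have e : pt ((-a : ℤ) : ℝ) ((-b : ℤ) : ℝ) =
        midpoint ℝ (pt ((0 : ℤ) : ℝ) ((0 : ℤ) : ℝ)) (pt ((-(2 * a) : ℤ) : ℝ) ((-(2 * b) : ℤ) : ℝ)) := by
      rw [midpoint_pt]; push_cast; congr 1 <;> ring
    rw [e, IsometryEquiv.map_midpoint, s1, s1', midpoint_comm]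
  have f1 := fix_partner hT ht2 hd2 hg1 hmid1
  obtain ⟨g2, hg2, s2, s2'⟩ := swap_centers hI ht2 hd2
  -- the midpoint of the second tile
  obtain ⟨e, f, ht3, hd3, hn3⟩ := partner hxy hT hM hG (-a - p) (-b - q)
  have emid : pt ((-a - p : ℤ) : ℝ) ((-b - q : ℤ) : ℝ) =
      midpoint ℝ (pt ((-a : ℤ) : ℝ) ((-b : ℤ) : ℝ))
        (pt ((-a - 2 * p : ℤ) : ℝ) ((-b - 2 * q : ℤ) : ℝ)) := by
    rw [midpoint_pt]; push_cast; congr 1 <;> ring
  have hmid2 : g2 (pt ((-a - p : ℤ) : ℝ) ((-b - q : ℤ) : ℝ)) =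
      pt ((-a - p : ℤ) : ℝ) ((-b - q : ℤ) : ℝ) := by
    rw [emid, IsometryEquiv.map_midpoint, s2, s2', midpoint_comm]
  have hmid3 : g1 (pt ((-a - p : ℤ) : ℝ) ((-b - q : ℤ) : ℝ)) =
      pt ((-a - p : ℤ) : ℝ) ((-b - q : ℤ) : ℝ) := by
    rw [emid, IsometryEquiv.map_midpoint, hmid1, f1]
  have f2 := fix_partner hT ht3 hd3 hg2 hmid2
  have f3 := fix_partner hT ht3 hd3 hg1 hmid3
  -- orthogonality relations from equidistance
  have hsq : ∀ c1 c2 e1 e2 : ℤ,
      dist (pt c1 c2) (pt e1 e2) ^ 2 = (((c1 - e1) ^ 2 + (c2 - e2) ^ 2 : ℤ) : ℝ) := by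
    intro c1 c2 e1 e2
    rw [dist_sq]; push_cast; simp
  have r1 : dist (pt ((-a - 2 * p : ℤ) : ℝ) ((-b - 2 * q : ℤ) : ℝ)) (pt ((0 : ℤ) : ℝ) ((0 : ℤ) : ℝ)) ^ 2
      = dist (pt ((-a - 2 * p : ℤ) : ℝ) ((-b - 2 * q : ℤ) : ℝ))
        (pt ((-(2 * a) : ℤ) : ℝ) ((-(2 * b) : ℤ) : ℝ)) ^ 2 := by
    rw [← g1.dist_eq, f1, s1]
  have r2 : dist (pt (e : ℝ) (f : ℝ)) (pt ((-a : ℤ) : ℝ) ((-b : ℤ) : ℝ)) ^ 2
      = dist (pt (e : ℝ) (f : ℝ)) (pt ((-a - 2 * p : ℤ) : ℝ) ((-b - 2 * q : ℤ) : ℝ)) ^ 2 := by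
    rw [← g2.dist_eq, f2, s2]
  have r3 : dist (pt (e : ℝ) (f : ℝ)) (pt ((0 : ℤ) : ℝ) ((0 : ℤ) : ℝ)) ^ 2
      = dist (pt (e : ℝ) (f : ℝ)) (pt ((-(2 * a) : ℤ) : ℝ) ((-(2 * b) : ℤ) : ℝ)) ^ 2 := by
    rw [← g1.dist_eq, f3, s1]
  rw [hsq, hsq] at r1 r2 r3
  have r1' := Int.cast_injective r1
  have r2' := Int.cast_injective r2
  have r3' := Int.cast_injective r3
  clear r1 r2 r3
  obtain ⟨r, hr⟩ : ∃ r, e = -a - p - r := ⟨-a - p - e, by ring⟩
  obtain ⟨s, hs⟩ : ∃ s, f = -b - q - s := ⟨-b - q - f, by ring⟩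
  subst hr hs
  have o1 : a * p + b * q = 0 := by linarith
  have o2 : p * r + q * s = 0 := by linarith
  have o3 : a * r + b * s = 0 := by linarith
  have n1 : 0 < a ^ 2 + b ^ 2 := by nlinarith
  have n2 : 0 < p ^ 2 + q ^ 2 := by nlinarith
  have n3 : 0 < r ^ 2 + s ^ 2 := by nlinarith
  have k1 : a * (r * q - s * p) = 0 := by linear_combination q * o3 - s * o1
  have k2 : b * (r * q - s * p) = 0 := by linear_combination r * o1 - p * o3
  have k3 : r * q - s * p = 0 := by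
    by_contra hne
    have ha0 : a = 0 := by
      rcases mul_eq_zero.1 k1 with h | h
      · exact h
      · exact absurd h hne
    have hb0 : b = 0 := by
      rcases mul_eq_zero.1 k2 with h | h
      · exact h
      · exact absurd h hne
    rw [ha0, hb0] at n1
    simp at n1
  have k4 : (p ^ 2 + q ^ 2) * (r ^ 2 + s ^ 2) = 0 := by
    have : (p ^ 2 + q ^ 2) * (r ^ 2 + s ^ 2) = (p * r + q * s) ^ 2 + (r * q - s * p) ^ 2 := by ring
    rw [this, o2, k3]; ring
  have k5 := mul_pos n2 n3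
  omega

theorem result (x y : ℤ) (hxy : 2 ≤ max |x| |y|) :
    (∃ F : Set (Set Plane), IsTiling F ∧ Monohedral F (T x y) ∧ OnGrid F ∧ Idiomeric F) ↔
      (Odd x ∨ Odd y) := by
  constructor
  · rintro ⟨F, hT, hM, hG, hI⟩
    by_contra h
    rw [not_or, Int.not_odd_iff_even, Int.not_odd_iff_even] at h
    exact obstruction hxy hT hM hG hI h.1 h.2
  · intro h
    obtain ⟨θ, m, hm, hx⟩ : ∃ (θ m : ℤ), Odd m ∧ x = m + θ * y := by
      by_cases hx : Odd x
      · exact ⟨0, x, hx, by ring⟩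
      · have hy : Odd y := by tauto
        exact ⟨1, x - y, (Int.not_odd_iff_even.1 hx).sub_odd hy, by ring⟩
    obtain ⟨h1, h2, h3⟩ := construction x y hxy θ m hm (by exact_mod_cast hx)
    refine ⟨_, h1, h2, ?_, h3⟩
    rintro _ ⟨p, rfl⟩
    refine ⟨2 * p.1 + θ * p.2, p.2, 2 * p.1 + m + θ * (p.2 + y), p.2 + y, ?_⟩
    rw [tl, C, C]
    push_cast
    rfl

end Pool.Agent.Results.MP_15d263_co.Aligned
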